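import Mathlib
import Pool.Agent.H892.KT.EN

/-!
# Project EN of helper892: primitives in the first variable (helper357)
-/

set_option autoImplicit false

open Filter Topology Set MeasureTheory

namespace Pool.Agent.H357.KT

open Pool.Agent.H892.KT

/-- the linear map `(z, w) ↦ (s z, w)` -/
noncomputable def L (s : ℝ) : ℂ × ℂ →L[ℂ] ℂ × ℂ :=
  (s : ℂ) • ((ContinuousLinearMap.inl ℂ ℂ ℂ).comp (ContinuousLinearMap.fst ℂ ℂ ℂ)) +
    (ContinuousLinearMap.inr ℂ ℂ ℂ).comp (ContinuousLinearMap.snd ℂ ℂ ℂ)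

theorem L_apply (s : ℝ) (Y : ℂ × ℂ) : L s Y = ((s : ℂ) * Y.1, Y.2) := by
  unfold L
  ext <;> simp

theorem L_cont : Continuous L := by
  unfold L
  exact (Complex.continuous_ofReal.smul continuous_const).add continuous_const

theorem L_mem {δ : ℝ} {Y : ℂ × ℂ} (hY : Y ∈ Metric.ball (0 : ℂ × ℂ) δ) {s : ℝ}
    (hs : s ∈ Icc (0 : ℝ) 1) : L s Y ∈ Metric.ball (0 : ℂ × ℂ) δ := by
  rw [mem_ball_zero_iff] at hY ⊢
  refine lt_of_le_of_lt ?_ hY
  rw [L_apply, Prod.norm_def, Prod.norm_def]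
  refine max_le_max ?_ le_rfl
  show ‖(s : ℂ) * Y.1‖ ≤ ‖Y.1‖
  rw [norm_mul, Complex.norm_real, Real.norm_eq_abs, abs_of_nonneg hs.1]
  exact mul_le_of_le_one_left (norm_nonneg _) hs.2

/-- the integrand -/
noncomputable def Fi (h : ℂ × ℂ → ℂ) (Y : ℂ × ℂ) (s : ℝ) : ℂ := Y.1 * h (L s Y)

/-- the derivative of the integrand -/
noncomputable def Fd (h : ℂ × ℂ → ℂ) (Y : ℂ × ℂ) (s : ℝ) : ℂ × ℂ →L[ℂ] ℂ :=
  Y.1 • ((fderiv ℂ h (L s Y)).comp (L s)) + h (L s Y) • ContinuousLinearMap.fst ℂ ℂ ℂ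

theorem L_cont2 : Continuous (fun p : (ℂ × ℂ) × ℝ => L p.2 p.1) :=
  (L_cont.comp continuous_snd).clm_apply continuous_fst

theorem L_maps (δ : ℝ) : MapsTo (fun p : (ℂ × ℂ) × ℝ => L p.2 p.1)
    (Metric.ball (0 : ℂ × ℂ) δ ×ˢ Icc (0 : ℝ) 1) (Metric.ball (0 : ℂ × ℂ) δ) :=
  fun _ hp => L_mem hp.1 hp.2

theorem Fi_cont {δ : ℝ} {h : ℂ × ℂ → ℂ} (hc : ContinuousOn h (Metric.ball 0 δ)) :
    ContinuousOn (fun p : (ℂ × ℂ) × ℝ => Fi h p.1 p.2)
      (Metric.ball (0 : ℂ × ℂ) δ ×ˢ Icc (0 : ℝ) 1) := by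
  unfold Fi
  exact ((continuous_fst.comp continuous_fst).continuousOn).mul
    (hc.comp L_cont2.continuousOn (L_maps δ))

theorem Fd_cont {δ : ℝ} {h : ℂ × ℂ → ℂ} (hc : ContinuousOn h (Metric.ball 0 δ))
    (hd : ContinuousOn (fderiv ℂ h) (Metric.ball 0 δ)) :
    ContinuousOn (fun p : (ℂ × ℂ) × ℝ => Fd h p.1 p.2)
      (Metric.ball (0 : ℂ × ℂ) δ ×ˢ Icc (0 : ℝ) 1) := by
  unfold Fd
  refine ContinuousOn.add ?_ ?_
  · refine ContinuousOn.smul ((continuous_fst.comp continuous_fst).continuousOn) ?_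
    exact (hd.comp L_cont2.continuousOn (L_maps δ)).clm_comp
      (L_cont.comp continuous_snd).continuousOn
  · exact (hc.comp L_cont2.continuousOn (L_maps δ)).smul continuousOn_const

theorem slice {δ : ℝ} {E : Type} [TopologicalSpace E] {f : (ℂ × ℂ) → ℝ → E}
    (hf : ContinuousOn (fun p : (ℂ × ℂ) × ℝ => f p.1 p.2)
      (Metric.ball (0 : ℂ × ℂ) δ ×ˢ Icc (0 : ℝ) 1)) {Y : ℂ × ℂ}
    (hY : Y ∈ Metric.ball (0 : ℂ × ℂ) δ) : ContinuousOn (f Y) (uIcc (0 : ℝ) 1) := by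
  rw [uIcc_of_le zero_le_one]
  have h1 : ContinuousOn (fun s : ℝ => ((Y, s) : (ℂ × ℂ) × ℝ)) (Icc (0 : ℝ) 1) :=
    (Continuous.prodMk_right Y).continuousOn
  exact hf.comp h1 (fun s hs => ⟨hY, hs⟩)

theorem Fi_deriv {δ : ℝ} {h : ℂ × ℂ → ℂ} (hh : DifferentiableOn ℂ h (Metric.ball 0 δ))
    {Y : ℂ × ℂ} (hY : Y ∈ Metric.ball (0 : ℂ × ℂ) δ) {s : ℝ} (hs : s ∈ Icc (0 : ℝ) 1) :
    HasFDerivAt (fun y => Fi h y s) (Fd h Y s) Y := by
  have h1 : DifferentiableAt ℂ h (L s Y) :=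
    hh.differentiableAt (Metric.isOpen_ball.mem_nhds (L_mem hY hs))
  have h2 : HasFDerivAt (fun y => h (L s y)) ((fderiv ℂ h (L s Y)).comp (L s)) Y :=
    h1.hasFDerivAt.comp Y (L s).hasFDerivAt
  exact (hasFDerivAt_fst (𝕜 := ℂ) (p := Y)).mul h2

/-- the derivative of the integral -/
theorem main_deriv {δ : ℝ} {h : ℂ × ℂ → ℂ} (hh : DifferentiableOn ℂ h (Metric.ball 0 δ))
    (hd : ContinuousOn (fderiv ℂ h) (Metric.ball 0 δ))
    {Y : ℂ × ℂ} (hY : Y ∈ Metric.ball (0 : ℂ × ℂ) δ) :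
    HasFDerivAt (fun y => ∫ s in (0 : ℝ)..1, Fi h y s) (∫ s in (0 : ℝ)..1, Fd h Y s) Y := by
  have hc := hh.continuousOn
  obtain ⟨r, hr1, hr2⟩ := exists_between (mem_ball_zero_iff.1 hY)
  have hsub : Metric.closedBall (0 : ℂ × ℂ) r ⊆ Metric.ball 0 δ :=
    Metric.closedBall_subset_ball hr2
  have hsub' : Metric.ball (0 : ℂ × ℂ) r ⊆ Metric.ball 0 δ :=
    Metric.ball_subset_ball hr2.le
  have hK : IsCompact (Metric.closedBall (0 : ℂ × ℂ) r ×ˢ Icc (0 : ℝ) 1) :=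
    (isCompact_closedBall _ _).prod isCompact_Icc
  obtain ⟨C, hC⟩ := hK.exists_bound_of_continuousOn
    ((Fd_cont hc hd).mono (prod_mono hsub le_rfl))
  have hmem : Metric.ball (0 : ℂ × ℂ) r ∈ 𝓝 Y :=
    Metric.isOpen_ball.mem_nhds (mem_ball_zero_iff.2 hr1)
  have huI : ∀ t : ℝ, t ∈ uIoc (0 : ℝ) 1 → t ∈ Icc (0 : ℝ) 1 := by
    intro t ht
    rw [uIoc_of_le zero_le_one] at ht
    exact ⟨ht.1.le, ht.2⟩
  refine intervalIntegral.hasFDerivAt_integral_of_dominated_of_fderiv_le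
    (F := Fi h) (F' := Fd h) (bound := fun _ => C) (s := Metric.ball (0 : ℂ × ℂ) r)
    hmem ?_ ?_ ?_ ?_ ?_ ?_
  · filter_upwards [hmem] with y hy
    exact (intervalIntegrable_iff.1 (slice (Fi_cont hc) (hsub' hy)).intervalIntegrable).aestronglyMeasurable
  · exact (slice (Fi_cont hc) hY).intervalIntegrable
  · exact (intervalIntegrable_iff.1 (slice (Fd_cont hc hd) hY).intervalIntegrable).aestronglyMeasurable
  · refine Eventually.of_forall ?_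
    intro t ht x hx
    exact hC (x, t) ⟨Metric.ball_subset_closedBall hx, huI t ht⟩
  · exact intervalIntegrable_const
  · refine Eventually.of_forall ?_
    intro t ht x hx
    exact Fi_deriv hh (hsub' hx) (huI t ht)

theorem Fd_one (h : ℂ × ℂ → ℂ) (Y : ℂ × ℂ) (s : ℝ) :
    Fd h Y s (1, 0) = h (L s Y) + (s : ℂ) * fderiv ℂ h (L s Y) (Y.1, 0) := by
  have h1 : L s (1, 0) = (s : ℂ) • ((1 : ℂ), (0 : ℂ)) := by
    rw [L_apply]
    ext <;> simp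
  have h2 : ((Y.1, 0) : ℂ × ℂ) = Y.1 • ((1 : ℂ), (0 : ℂ)) := by
    ext <;> simp
  have h3 : Fd h Y s (1, 0) = Y.1 * fderiv ℂ h (L s Y) (L s (1, 0)) + h (L s Y) * 1 := rfl
  rw [h3, h1, h2, map_smul, map_smul, smul_eq_mul, smul_eq_mul]
  ring

theorem g_deriv {δ : ℝ} {h : ℂ × ℂ → ℂ} (hh : DifferentiableOn ℂ h (Metric.ball 0 δ))
    {Y : ℂ × ℂ} (hY : Y ∈ Metric.ball (0 : ℂ × ℂ) δ) {s : ℝ} (hs : s ∈ Icc (0 : ℝ) 1) :
    HasDerivAt (fun t : ℝ => (t : ℂ) * h (L t Y))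
      (h (L s Y) + (s : ℂ) * fderiv ℂ h (L s Y) (Y.1, 0)) s := by
  have h1 : DifferentiableAt ℂ h (L s Y) :=
    hh.differentiableAt (Metric.isOpen_ball.mem_nhds (L_mem hY hs))
  have h2 : HasDerivAt (fun u : ℂ => ((u * Y.1, Y.2) : ℂ × ℂ)) (Y.1, 0) (s : ℂ) := by
    have e1 : HasDerivAt (fun u : ℂ => u * Y.1) Y.1 (s : ℂ) := by
      have := (hasDerivAt_id (s : ℂ)).mul_const Y.1
      rw [one_mul] at this
      exact this
    exact e1.prodMk (hasDerivAt_const (s : ℂ) Y.2)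
  have h1' : HasFDerivAt h (fderiv ℂ h (L s Y)) (((s : ℂ) * Y.1, Y.2) : ℂ × ℂ) := by
    rw [← L_apply]
    exact h1.hasFDerivAt
  have h3 : HasDerivAt (fun u : ℂ => h (u * Y.1, Y.2)) (fderiv ℂ h (L s Y) (Y.1, 0)) (s : ℂ) :=
    HasFDerivAt.comp_hasDerivAt (s : ℂ) h1' h2
  have h4 : HasDerivAt (fun u : ℂ => u * h (u * Y.1, Y.2))
      (1 * h ((s : ℂ) * Y.1, Y.2) + (s : ℂ) * fderiv ℂ h (L s Y) (Y.1, 0)) (s : ℂ) :=
    (hasDerivAt_id (s : ℂ)).mul h3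
  have h5 := h4.comp_ofReal
  rw [one_mul, ← L_apply] at h5
  have h6 : (fun t : ℝ => (t : ℂ) * h (L t Y)) = fun t : ℝ => (t : ℂ) * h ((t : ℂ) * Y.1, Y.2) := by
    funext t
    rw [L_apply]
  rw [h6]
  exact h5

theorem t_PRIM (hA : S_ANA) : S_PRIM := by
  intro δ h hδ hh
  -- the derivative is continuous
  have hAn : ∀ x ∈ Metric.ball (0 : ℂ × ℂ) δ, AnalyticAt ℂ h x := by
    intro x hx
    have h1 : DifferentiableOn ℂ (fun y : ℂ × ℂ => ((h y, 0) : ℂ × ℂ)) (Metric.ball 0 δ) :=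
      hh.prodMk (differentiableOn_const 0)
    have h2 := hA (Metric.ball 0 δ) (fun y : ℂ × ℂ => ((h y, 0) : ℂ × ℂ)) Metric.isOpen_ball h1 x hx
    exact ((ContinuousLinearMap.fst ℂ ℂ ℂ).analyticAt _).comp h2
  have hd : ContinuousOn (fderiv ℂ h) (Metric.ball 0 δ) :=
    fun x hx => (hAn x hx).fderiv.continuousAt.continuousWithinAt
  refine ⟨fun y => ∫ s in (0 : ℝ)..1, Fi h y s, ?_, ?_, ?_⟩
  · intro Y hY
    exact (main_deriv hh hd hY).differentiableAt.differentiableWithinAt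
  · intro z
    have h1 : (fun s : ℝ => Fi h (0, z) s) = fun _ => 0 := by
      funext s
      show (0 : ℂ) * _ = 0
      rw [zero_mul]
    show (∫ s in (0 : ℝ)..1, Fi h (0, z) s) = 0
    rw [h1, intervalIntegral.integral_zero]
  · intro Y hY
    rw [(main_deriv hh hd hY).fderiv]
    have hint : IntervalIntegrable (Fd h Y) volume 0 1 :=
      (slice (Fd_cont hh.continuousOn hd) hY).intervalIntegrable
    rw [ContinuousLinearMap.intervalIntegral_apply hint]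
    have h1 : (fun s : ℝ => Fd h Y s (1, 0)) =
        fun s : ℝ => h (L s Y) + (s : ℂ) * fderiv ℂ h (L s Y) (Y.1, 0) := by
      funext s
      exact Fd_one h Y s
    have hint2 : IntervalIntegrable
        (fun s : ℝ => h (L s Y) + (s : ℂ) * fderiv ℂ h (L s Y) (Y.1, 0)) volume 0 1 := by
      rw [← h1]
      exact ((slice (Fd_cont hh.continuousOn hd) hY).clm_apply continuousOn_const).intervalIntegrable
    rw [h1, intervalIntegral.integral_eq_sub_of_hasDerivAt (f := fun t : ℝ => (t : ℂ) * h (L t Y))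
      (fun s hs => g_deriv hh hY (by rwa [uIcc_of_le zero_le_one] at hs)) hint2]
    rw [L_apply, L_apply]
    simp

end Pool.Agent.H357.KT
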